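import Mathlib

/-!
# Baire category tools for the group jumps
-/

set_option autoImplicit false

open Filter Topology TopologicalSpace Set

namespace Pool.Agent.H794R3.GJ

/-- Borel maps into second countable spaces are continuous on a residual set. -/
theorem exists_residual_continuousOn {A B : Type*} [TopologicalSpace A] [TopologicalSpace B]
    [SecondCountableTopology B] (f : A → B) (hf : @Measurable A B (borel A) (borel B) f) :
    ∃ D ∈ residual A, ContinuousOn f D := by
  let _ : MeasurableSpace A := borel A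
  have : BorelSpace A := ⟨rfl⟩
  let _ : MeasurableSpace B := borel B
  have : BorelSpace B := ⟨rfl⟩
  have h1 : ∀ V : countableBasis B, ∃ U : Set A, IsOpen U ∧ f ⁻¹' (V : Set B) =ᵇ U := by
    intro V
    exact (hf (isOpen_of_mem_countableBasis V.2).measurableSet).residualEq_isOpen
  choose U hUo hU using h1
  have : Countable (countableBasis B) := (countable_countableBasis B).to_subtype
  refine ⟨{a | ∀ V : countableBasis B, (a ∈ f ⁻¹' (V : Set B) ↔ a ∈ U V)}, ?_, ?_⟩
  · rw [← Filter.eventually_mem_set]
    simp only [mem_ofPred_eq]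
    rw [eventually_countable_forall]
    intro V
    filter_upwards [hU V] with a ha
    exact Iff.of_eq ha
  · intro a ha
    rw [ContinuousWithinAt, (isBasis_countableBasis B).nhds_hasBasis.tendsto_right_iff]
    rintro V ⟨hV, haV⟩
    have h2 : a ∈ U ⟨V, hV⟩ := (ha ⟨V, hV⟩).1 haV
    filter_upwards [self_mem_nhdsWithin, mem_nhdsWithin_of_mem_nhds ((hUo ⟨V, hV⟩).mem_nhds h2)]
      with b hb hb2
    exact (hb ⟨V, hV⟩).2 hb2

/-- The easy half of the Kuratowski-Ulam theorem. -/
theorem residual_prod {A B : Type*} [TopologicalSpace A] [TopologicalSpace B]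
    [SecondCountableTopology B] {D : Set (A × B)} (hD : D ∈ residual (A × B)) :
    ∀ᶠ a in residual A, {b | (a, b) ∈ D} ∈ residual B := by
  rw [mem_residual_iff] at hD
  obtain ⟨S, ho, hd, hc, hsub⟩ := hD
  have key : ∀ t ∈ S, ∀ᶠ a in residual A, {b | (a, b) ∈ t} ∈ residual B := by
    intro t ht
    have h1 : ∀ V ∈ countableBasis B, ∀ᶠ a in residual A, ∃ b ∈ V, (a, b) ∈ t := by
      intro V hV
      have hVo := isOpen_of_mem_countableBasis hV
      apply residual_of_dense_open
      · have : {a | ∃ b ∈ V, (a, b) ∈ t} = Prod.fst '' (t ∩ (univ ×ˢ V)) := by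
          ext a
          constructor
          · rintro ⟨b, hb, hab⟩; exact ⟨(a, b), ⟨hab, trivial, hb⟩, rfl⟩
          · rintro ⟨⟨a', b⟩, ⟨hab, _, hb⟩, rfl⟩; exact ⟨b, hb, hab⟩
        rw [this]
        exact isOpenMap_fst _ ((ho t ht).inter (isOpen_univ.prod hVo))
      · rw [dense_iff_inter_open]
        intro W hW hWne
        obtain ⟨⟨a, b⟩, ⟨ha, hb⟩, hab⟩ := (hd t ht).inter_open_nonempty _ (hW.prod hVo)
          (hWne.prod (nonempty_of_mem_countableBasis hV))
        exact ⟨a, ha, b, hb, hab⟩
    have h2 : ∀ᶠ a in residual A, ∀ V ∈ countableBasis B, ∃ b ∈ V, (a, b) ∈ t :=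
      (eventually_countable_ball (countable_countableBasis B)).2 h1
    filter_upwards [h2] with a ha
    apply residual_of_dense_open
    · exact (ho t ht).preimage (by fun_prop : Continuous fun b => (a, b))
    · rw [(isBasis_countableBasis B).dense_iff]
      intro V hV _
      obtain ⟨b, hb, hab⟩ := ha V hV
      exact ⟨b, hb, hab⟩
  have h3 := (eventually_countable_ball hc).2 key
  filter_upwards [h3] with a ha
  have h4 : ∀ᶠ b in residual B, ∀ t ∈ S, (a, b) ∈ t := (eventually_countable_ball hc).2 ha
  filter_upwards [h4] with b hb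
  exact hsub (mem_sInter.2 hb)

end Pool.Agent.H794R3.GJ
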