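import Pool.Agent.H794R3.GJ.Cat

/-!
# The iterated jump of equality is not reducible to a relation with countable classes
-/

set_option autoImplicit false

open Filter Topology TopologicalSpace Set

namespace Pool.Agent.H794R3.GJ

/-- The `G`-jump of a relation `E`: `α` and `β` in `X ^ G` are related when
`α (g⁻¹ h)` and `β h` are `E`-related for all `h`, for some `g`. -/
def jump (G : Type) [Group G] {X : Type} (E : X → X → Prop) : (G → X) → (G → X) → Prop :=
  fun α β => ∃ g : G, ∀ h : G, E (α (g⁻¹ * h)) (β h)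

/-- Borel reducibility of relations on topological spaces. -/
def BorelReducible {X Y : Type} [TopologicalSpace X] [TopologicalSpace Y]
    (E : X → X → Prop) (F : Y → Y → Prop) : Prop :=
  ∃ f : X → Y, @Measurable X Y (borel X) (borel Y) f ∧ ∀ x x', E x x' ↔ F (f x) (f x')

section shift

variable {G X : Type} [Group G]

/-- the shift action -/
def act (g : G) (w : G → X) : G → X := fun k => w (g⁻¹ * k)

theorem act_mul (g g' : G) (w : G → X) : act g (act g' w) = act (g * g') w := by
  funext k; simp [act, mul_assoc]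

theorem act_one (w : G → X) : act 1 w = w := by funext k; simp [act]

variable [TopologicalSpace X]

theorem continuous_act (g : G) : Continuous (act g : (G → X) → (G → X)) := by
  unfold act; fun_prop

variable [Infinite G]

theorem act_transitive {U V : Set (G → X)} (hU : IsOpen U) (hV : IsOpen V) (hUn : U.Nonempty)
    (hVn : V.Nonempty) : ∃ g : G, ∃ w ∈ U, act g w ∈ V := by
  classical
  obtain ⟨w0, hw0⟩ := hUn
  obtain ⟨v0, hv0⟩ := hVn
  obtain ⟨I, u, hu, hIU⟩ := isOpen_pi_iff.1 hU w0 hw0
  obtain ⟨J, v, hv, hJV⟩ := isOpen_pi_iff.1 hV v0 hv0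
  obtain ⟨g, hg⟩ := Infinite.exists_notMem_finset ((J ×ˢ I).image fun q => q.1 * q.2⁻¹)
  have hdis : ∀ j ∈ J, g⁻¹ * j ∉ I := by
    intro j hj hi
    apply hg
    rw [Finset.mem_image]
    exact ⟨(j, g⁻¹ * j), Finset.mk_mem_product hj hi, by simp⟩
  refine ⟨g, fun k => if k ∈ I then w0 k else v0 (g * k), hIU ?_, hJV ?_⟩
  · intro i hi
    have : i ∈ I := hi
    simp only [this, if_true]
    exact (hu i this).2
  · intro j hj
    have hj' : j ∈ J := hj
    simp only [act, hdis j hj', if_false]
    rw [mul_inv_cancel_left]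
    exact (hv j hj').2

theorem exists_ne_mem [Nontrivial X] {V : Set (G → X)} (hV : IsOpen V) (hVn : V.Nonempty)
    (w : G → X) : ∃ v ∈ V, v ≠ w := by
  classical
  obtain ⟨v0, hv0⟩ := hVn
  obtain ⟨J, v, hv, hJV⟩ := isOpen_pi_iff.1 hV v0 hv0
  obtain ⟨k, hk⟩ := Infinite.exists_notMem_finset J
  obtain ⟨a, ha⟩ := exists_ne (w k)
  refine ⟨Function.update v0 k a, hJV ?_, ?_⟩
  · intro j hj
    have hj' : j ∈ J := hj
    have : j ≠ k := fun h => hk (h ▸ hj')
    rw [Function.update_of_ne this]
    exact (hv j hj').2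
  · intro h
    apply ha
    rw [← h, Function.update_self]

end shift

section main

variable {G H X : Type} [Group G]

/-- the coordinatewise action -/
def Act (γ : H → G) (x : H → G → X) : H → G → X := fun h => act (γ h) (x h)

theorem Act_inv (γ : H → G) (x : H → G → X) : Act γ (Act (fun h => (γ h)⁻¹) x) = x := by
  funext h
  simp [Act, act_mul, act_one]

theorem Act_inv' (γ : H → G) (x : H → G → X) : Act (fun h => (γ h)⁻¹) (Act γ x) = x := by
  funext h
  simp [Act, act_mul, act_one]

variable [TopologicalSpace X]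

theorem continuous_Act (γ : H → G) : Continuous (Act γ : (H → G → X) → (H → G → X)) := by
  unfold Act
  refine continuous_pi fun h => ?_
  exact (continuous_act (γ h)).comp (continuous_apply h)

/-- as a homeomorphism -/
def ActHomeo (γ : H → G) : (H → G → X) ≃ₜ (H → G → X) where
  toFun := Act γ
  invFun := Act fun h => (γ h)⁻¹
  left_inv x := Act_inv' γ x
  right_inv x := Act_inv γ x
  continuous_toFun := continuous_Act γ
  continuous_invFun := continuous_Act _

theorem isOpenMap_Act (γ : H → G) : IsOpenMap (Act γ : (H → G → X) → (H → G → X)) :=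
  (ActHomeo γ).isOpenMap

theorem continuous_Act2 [TopologicalSpace G] [DiscreteTopology G] :
    Continuous (fun q : (H → G → X) × (H → G) => Act q.2 q.1) := by
  refine continuous_pi fun h => continuous_pi fun k => ?_
  have h1 : Continuous (fun q : (G → X) × G => q.1 (q.2⁻¹ * k)) := by
    rw [continuous_prod_of_discrete_right]
    intro g
    exact continuous_apply (g⁻¹ * k)
  exact h1.comp (by fun_prop : Continuous (fun q : (H → G → X) × (H → G) => (q.1 h, q.2 h)))

theorem isOpenMap_Act2 [TopologicalSpace G] [DiscreteTopology G] :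
    IsOpenMap (fun q : (H → G → X) × (H → G) => Act q.2 q.1) := by
  intro O hO
  have : (fun q : (H → G → X) × (H → G) => Act q.2 q.1) '' O =
      ⋃ γ : H → G, Act γ '' {x | (x, γ) ∈ O} := by
    ext y
    simp only [mem_image, mem_iUnion, mem_ofPred_eq, Prod.exists]
    constructor
    · rintro ⟨x, γ, h1, h2⟩; exact ⟨γ, x, h1, h2⟩
    · rintro ⟨γ, x, h1, h2⟩; exact ⟨x, γ, h1, h2⟩
  rw [this]
  refine isOpen_iUnion fun γ => isOpenMap_Act γ _ ?_
  exact hO.preimage (by fun_prop : Continuous fun x => (x, γ))

open Classical in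
/-- swapping the coordinates in `S` -/
noncomputable def swp {W : Type} (S : Finset H) (q : (H → W) × (H → W)) : (H → W) × (H → W) :=
  (fun h => if h ∈ S then q.2 h else q.1 h, fun h => if h ∈ S then q.1 h else q.2 h)

theorem swp_swp {W : Type} (S : Finset H) (q : (H → W) × (H → W)) : swp S (swp S q) = q := by
  unfold swp
  apply Prod.ext
  · funext h; by_cases hh : h ∈ S <;> simp [hh]
  · funext h; by_cases hh : h ∈ S <;> simp [hh]

theorem continuous_swp {W : Type} [TopologicalSpace W] (S : Finset H) :
    Continuous (swp S : (H → W) × (H → W) → _) := by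
  unfold swp
  refine Continuous.prodMk (continuous_pi fun h => ?_) (continuous_pi fun h => ?_)
  · by_cases hh : h ∈ S <;> simp only [hh, if_true, if_false] <;> fun_prop
  · by_cases hh : h ∈ S <;> simp only [hh, if_true, if_false] <;> fun_prop

theorem isOpenMap_swp {W : Type} [TopologicalSpace W] (S : Finset H) :
    IsOpenMap (swp S : (H → W) × (H → W) → _) :=
  (Homeomorph.mk ⟨swp S, swp S, swp_swp S, swp_swp S⟩ (continuous_swp S)
    (continuous_swp S)).isOpenMap

open Classical in
/-- extending a partial function by `1` -/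
noncomputable def ext1 (S : Finset H) (t : S → G) : H → G :=
  fun h => if hh : h ∈ S then t ⟨h, hh⟩ else 1

/-- the mixed point -/
noncomputable def mix (S : Finset H) (t : S → G) (q : (H → G → X) × (H → G → X)) : H → G → X :=
  Act (ext1 S t) (swp S q).2

theorem mix_mem (S : Finset H) (t : S → G) (q : (H → G → X) × (H → G → X)) (h : S) :
    mix S t q h = act (t h) (q.1 h) := by
  simp [mix, Act, ext1, swp]

theorem mix_notMem (S : Finset H) (t : S → G) (q : (H → G → X) × (H → G → X)) (h : H)
    (hh : h ∉ S) : mix S t q h = q.2 h := by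
  simp [mix, Act, ext1, swp, hh, act_one]

theorem tendsto_mix (S : Finset H) (t : S → G) :
    Tendsto (mix S t : (H → G → X) × (H → G → X) → _) (residual _) (residual _) := by
  have h1 : (mix S t : (H → G → X) × (H → G → X) → _) = Act (ext1 S t) ∘ Prod.snd ∘ swp S := rfl
  rw [h1]
  exact tendsto_residual_of_isOpenMap
    ((continuous_Act _).comp (continuous_snd.comp (continuous_swp S)))
    ((isOpenMap_Act _).comp (isOpenMap_snd.comp (isOpenMap_swp S)))

end main

theorem core {G H X Y : Type} [Group G] [Countable G] [Infinite G] [Group H] [Countable H]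
    [Infinite H] [TopologicalSpace X] [PolishSpace X] [Nontrivial X] [TopologicalSpace Y]
    [T2Space Y] [SecondCountableTopology Y] (F : Y → Y → Prop)
    (hF : ∀ y, {y' | F y y'}.Countable) : ¬ BorelReducible (jump H (jump G (@Eq X))) F := by
  classical
  rintro ⟨f, hf, hred⟩
  obtain ⟨D, hD, hfD⟩ := exists_residual_continuousOn f hf
  let _ : TopologicalSpace G := ⊥
  have _ : DiscreteTopology G := ⟨rfl⟩
  have hb : ∀ᶠ x in residual (H → G → X), {γ : H → G | Act γ x ∈ D} ∈ residual (H → G) :=
    residual_prod (tendsto_residual_of_isOpenMap continuous_Act2 isOpenMap_Act2 hD)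
  have hc : ∀ᶠ x in residual (H → G → X), ∀ h : H, ∀ V ∈ countableBasis (G → X),
      ∃ g : G, act g (x h) ∈ V := by
    rw [eventually_countable_forall]
    intro h
    rw [eventually_countable_ball (countable_countableBasis _)]
    intro V hV
    have hVo := isOpen_of_mem_countableBasis hV
    have h1 : {w : G → X | ∃ g : G, act g w ∈ V} ∈ residual (G → X) := by
      apply residual_of_dense_open
      · have : {w : G → X | ∃ g : G, act g w ∈ V} = ⋃ g : G, act g ⁻¹' V := by
          ext w; simp
        rw [this]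
        exact isOpen_iUnion fun g => hVo.preimage (continuous_act g)
      · rw [dense_iff_inter_open]
        intro U hU hUn
        obtain ⟨g, w, hw, hgw⟩ := act_transitive hU hVo hUn (nonempty_of_mem_countableBasis hV)
        exact ⟨w, hw, g, hgw⟩
    have h2 : Tendsto (fun x : H → G → X => x h) (residual _) (residual _) :=
      tendsto_residual_of_isOpenMap (continuous_apply h) (isOpenMap_eval h)
    exact h2 h1
  have hd : ∀ᶠ q in residual ((H → G → X) × (H → G → X)), ∀ (h h' : H) (g : G),
      q.2 h ≠ act g (q.1 h') := by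
    rw [eventually_countable_forall]
    intro h
    rw [eventually_countable_forall]
    intro h'
    rw [eventually_countable_forall]
    intro g
    have h1 : {p : (G → X) × (G → X) | p.2 ≠ act g p.1} ∈ residual ((G → X) × (G → X)) := by
      apply residual_of_dense_open
      · exact isOpen_ne_fun continuous_snd ((continuous_act g).comp continuous_fst)
      · rw [dense_iff_inter_open]
        intro O hO ⟨⟨w, w'⟩, hw⟩
        obtain ⟨U, V, hU, hV, hwU, hwV, hUV⟩ := isOpen_prod_iff.1 hO w w' hw
        obtain ⟨v, hv, hne⟩ := exists_ne_mem hV ⟨w', hwV⟩ (act g w)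
        exact ⟨(w, v), hUV ⟨hwU, hv⟩, hne⟩
    have h2 : Tendsto (fun q : (H → G → X) × (H → G → X) => (q.1 h', q.2 h)) (residual _)
        (residual _) := by
      apply tendsto_residual_of_isOpenMap (by fun_prop)
      exact (isOpenMap_eval h').prodMap (isOpenMap_eval h)
    exact h2 h1
  have ha : ∀ᶠ q in residual ((H → G → X) × (H → G → X)), ∀ i : Σ S : Finset H, (S → G),
      mix i.1 i.2 q ∈ D := by
    rw [eventually_countable_forall]
    intro i
    exact tendsto_mix i.1 i.2 hD
  have hfst : Tendsto (Prod.fst : (H → G → X) × (H → G → X) → _) (residual _) (residual _) :=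
    tendsto_residual_of_isOpenMap continuous_fst isOpenMap_fst
  have hall := ((hfst.eventually hb).and (hfst.eventually hc)).and (hd.and ha)
  obtain ⟨⟨x, z⟩, ⟨hbx, hcx⟩, hdx, hax⟩ := (dense_of_mem_residual hall).nonempty
  simp only at hbx hcx hdx
  -- the class of `x`
  have hcls : ∀ γ : H → G, F (f x) (f (Act γ x)) := by
    intro γ
    rw [← hred]
    exact ⟨1, fun h => ⟨γ h, fun k => by simp [Act, act]⟩⟩
  let A : Y → Set (H → G) := fun c => {γ | Act γ x ∈ D ∧ f (Act γ x) = c}
  obtain ⟨c, hc0⟩ : ∃ c, (interior (closure (A c))).Nonempty := by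
    by_contra hcon
    push Not at hcon
    have h1 : ∀ c ∈ {y' | F (f x) y'}, ∀ᶠ γ in residual (H → G), γ ∈ (closure (A c))ᶜ := by
      intro c _
      apply residual_of_dense_open isClosed_closure.isOpen_compl
      rw [← interior_eq_empty_iff_dense_compl]
      exact hcon c
    have h2 := (eventually_countable_ball (hF (f x))).2 h1
    obtain ⟨γ, hγ1, hγ2⟩ := (dense_of_mem_residual (h2.and hbx)).nonempty
    exact hγ1 (f (Act γ x)) (hcls γ) (subset_closure ⟨hγ2, rfl⟩)
  obtain ⟨γ0, hγ0⟩ := hc0
  obtain ⟨S, u, hu, hSu⟩ := isOpen_pi_iff.1 isOpen_interior γ0 hγ0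
  let t : S → G := fun h => γ0 h
  let y : H → G → X := mix S t (x, z)
  have hyD : y ∈ D := hax ⟨S, t⟩
  have hSo : IsOpen ((S : Set H).pi u) :=
    isOpen_set_pi S.finite_toSet fun h hh => (hu h hh).1
  have hconst : ∀ O : Set (H → G → X), IsOpen O → y ∈ O → ∃ γ, Act γ x ∈ O ∧ γ ∈ A c := by
    intro O hO hyO
    obtain ⟨T, v, hv, hTv⟩ := isOpen_pi_iff.1 hO y hyO
    have hg : ∀ h : H, ∃ g : G, h ∈ T → act g (x h) ∈ v h := by
      intro h
      by_cases hh : h ∈ T
      · obtain ⟨V, hV, hyV, hVv⟩ := (isBasis_countableBasis (G → X)).exists_subset_of_mem_open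
          (hv h hh).2 (hv h hh).1
        obtain ⟨g, hg⟩ := hcx h V hV
        exact ⟨g, fun _ => hVv hg⟩
      · exact ⟨1, fun h => absurd h hh⟩
    choose gg hgg using hg
    let γ1 : H → G := fun h => if h ∈ S then γ0 h else gg h
    have h1 : γ1 ∈ (S : Set H).pi u ∩ {γ | Act γ x ∈ O} := by
      constructor
      · intro h hh
        have hh' : h ∈ S := hh
        simp only [γ1, hh', if_true]
        exact (hu h hh').2
      · apply hTv
        intro h hh
        have hh' : h ∈ T := hh
        by_cases hS : h ∈ S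
        · have e1 : Act γ1 x h = y h := by
            simp only [y]
            rw [mix_mem S t (x, z) ⟨h, hS⟩]
            simp [Act, γ1, hS, t]
          rw [e1]
          exact (hv h hh').2
        · have e1 : Act γ1 x h = act (gg h) (x h) := by simp [Act, γ1, hS]
          rw [e1]
          exact hgg h hh'
    have h2 : IsOpen ((S : Set H).pi u ∩ {γ | Act γ x ∈ O}) := by
      refine hSo.inter (hO.preimage ?_)
      exact continuous_Act2.comp (by fun_prop : Continuous fun γ : H → G => (x, γ))
    have h3 : γ1 ∈ closure (A c) := interior_subset (hSu h1.1)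
    obtain ⟨γ2, hγ2, hγ2'⟩ := mem_closure_iff.1 h3 _ h2 h1
    exact ⟨γ2, hγ2.2, hγ2'⟩
  have hfy : f y = c := by
    by_contra hne
    have h1 : f ⁻¹' {v | v ≠ c} ∈ 𝓝[D] y := hfD y hyD (isOpen_ne.mem_nhds hne)
    obtain ⟨O, hO, hyO, hOD⟩ := mem_nhdsWithin.1 h1
    obtain ⟨γ, hγ1, hγ2⟩ := hconst O hO hyO
    exact hOD ⟨hγ1, hγ2.1⟩ hγ2.2
  obtain ⟨γ, -, hγ⟩ := hconst univ isOpen_univ trivial
  have h1 : F (f y) (f y) := (hred y y).1 ⟨1, fun h => ⟨1, fun k => by simp⟩⟩
  have h2 : F (f y) (f (Act γ x)) := by
    rw [hγ.2, ← hfy]; exact h1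
  rw [← hred] at h2
  obtain ⟨h0, hh0⟩ := h2
  obtain ⟨k, hk⟩ := Infinite.exists_notMem_finset S
  obtain ⟨g, hg⟩ := hh0 (h0 * k)
  rw [inv_mul_cancel_left] at hg
  have h3 : act g (y k) = act (γ (h0 * k)) (x (h0 * k)) := funext fun j => hg j
  have h4 : y k = z k := mix_notMem S t (x, z) k hk
  apply hdx k (h0 * k) (g⁻¹ * γ (h0 * k))
  rw [← h4, ← act_mul, ← h3, act_mul]
  simp [act_one]

end Pool.Agent.H794R3.GJ
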